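import Mathlib
import Pool.Agent.T6.H76.SpContents

/-!
# Squared symplectic and orthogonal contents over hook lengths

For every `n`, both squared sums equal the number of partitions of `n` all of whose parts
are congruent to `2` modulo `4`, and the generating series is the stated infinite product.
-/

namespace Pool.Agent.Results.MP_80d245_co.SquaredContents

open Finset PowerSeries

/-- The `i`-th part `λ_i` of a partition, `i ≥ 1` (zero beyond the number of parts). -/
def part {n : ℕ} (p : n.Partition) (i : ℕ) : ℕ :=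
  (p.parts.sort (· ≥ ·)).getD (i - 1) 0

/-- The `j`-th part `λ^t_j` of the conjugate partition, `j ≥ 1`: the number of `i ≥ 1`
with `λ_i ≥ j`. -/
def conj {n : ℕ} (p : n.Partition) (j : ℕ) : ℕ :=
  ((Icc 1 n).filter (fun i => j ≤ part p i)).card

/-- The cells `(i, j)` with `i ≥ 1` and `1 ≤ j ≤ λ_i`. -/
def cells {n : ℕ} (p : n.Partition) : Finset (ℕ × ℕ) :=
  (Icc 1 n ×ˢ Icc 1 n).filter (fun u => u.2 ≤ part p u.1)

/-- The hook length `(λ_i - j) + (λ^t_j - i) + 1`. -/
def hook {n : ℕ} (p : n.Partition) (i j : ℕ) : ℤ :=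
  ((part p i : ℤ) - j) + ((conj p j : ℤ) - i) + 1

/-- The symplectic content. -/
def csp {n : ℕ} (p : n.Partition) (i j : ℕ) : ℤ :=
  if i > j then ((part p i : ℤ) - i) + ((part p j : ℤ) - j) + 2
  else -((conj p i : ℤ) - i) - ((conj p j : ℤ) - j)

/-- The orthogonal content. -/
def cO {n : ℕ} (p : n.Partition) (i j : ℕ) : ℤ :=
  if i ≥ j then ((part p i : ℤ) - i) + ((part p j : ℤ) - j)
  else -((conj p i : ℤ) - i) - ((conj p j : ℤ) - j) - 2

/-- The squared symplectic sum. -/
def Ssp (n : ℕ) : ℚ :=
  ∑ p : n.Partition, ∏ u ∈ cells p, ((csp p u.1 u.2 : ℚ) / (hook p u.1 u.2 : ℚ)) ^ 2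

/-- The squared orthogonal sum. -/
def SO (n : ℕ) : ℚ :=
  ∑ p : n.Partition, ∏ u ∈ cells p, ((cO p u.1 u.2 : ℚ) / (hook p u.1 u.2 : ℚ)) ^ 2

/-! ### The Young diagram of a partition -/

open Pool.Agent.T6.H76.SpContents

/-- The Young diagram of a partition. -/
def diag {n : ℕ} (p : n.Partition) : YoungDiagram :=
  YoungDiagram.ofRowLens (p.parts.sort (· ≥ ·)) (Multiset.pairwise_sort p.parts (· ≥ ·)).sortedGE

theorem sort_pos {n : ℕ} (p : n.Partition) : ∀ x ∈ p.parts.sort (· ≥ ·), 0 < x := by
  intro x hx
  rw [Multiset.mem_sort] at hx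
  exact p.parts_pos hx

theorem rowLens_diag {n : ℕ} (p : n.Partition) : (diag p).rowLens = p.parts.sort (· ≥ ·) :=
  YoungDiagram.rowLens_ofRowLens_eq_self (sort_pos p)

theorem rowLen_diag {n : ℕ} (p : n.Partition) (i : ℕ) :
    (diag p).rowLen i = (p.parts.sort (· ≥ ·)).getD i 0 := by
  have key : ∀ j, j < (diag p).rowLen i ↔ j < (p.parts.sort (· ≥ ·)).getD i 0 := by
    intro j
    rw [← YoungDiagram.mem_iff_lt_rowLen]
    unfold diag
    rw [YoungDiagram.mem_ofRowLens]
    constructor
    · rintro ⟨h1, h2⟩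
      rw [List.getD_eq_getElem _ _ h1]
      exact h2
    · intro h
      by_cases h1 : i < (p.parts.sort (· ≥ ·)).length
      · rw [List.getD_eq_getElem _ _ h1] at h
        exact ⟨h1, h⟩
      · rw [List.getD_eq_default _ _ (by omega)] at h
        omega
  have h1 := key ((diag p).rowLen i)
  have h2 := key ((p.parts.sort (· ≥ ·)).getD i 0)
  omega

theorem card_cellsOfRowLens (w : List ℕ) : (YoungDiagram.cellsOfRowLens w).card = w.sum := by
  induction w with
  | nil => rfl
  | cons a w ih =>
    rw [YoungDiagram.cellsOfRowLens, Finset.card_union_of_disjoint, Finset.card_map, ih]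
    · simp
    · rw [Finset.disjoint_left]
      rintro ⟨x, y⟩ h1 h2
      simp only [mem_product, mem_singleton, mem_map] at h1 h2
      obtain ⟨⟨u, v⟩, _, h4⟩ := h2
      simp [Prod.ext_iff] at h4
      omega

theorem card_diag {n : ℕ} (p : n.Partition) : (diag p).card = n := by
  have h : (diag p).card = (p.parts.sort (· ≥ ·)).sum := card_cellsOfRowLens _
  rw [h, ← Multiset.sum_coe, Multiset.sort_eq, p.parts_sum]

theorem card_eq_sum_rowLens (μ : YoungDiagram) : μ.card = μ.rowLens.sum := by
  conv_lhs => rw [← YoungDiagram.ofRowLens_to_rowLens_eq_self (μ := μ)]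
  exact card_cellsOfRowLens _

theorem rowLen_le {n : ℕ} (p : n.Partition) (i : ℕ) : (diag p).rowLen i ≤ n := by
  rw [YoungDiagram.rowLen_eq_card]
  refine (Finset.card_le_card (Finset.filter_subset _ _)).trans ?_
  exact (card_diag p).le

theorem colLen_le {n : ℕ} (p : n.Partition) (j : ℕ) : (diag p).colLen j ≤ n := by
  rw [YoungDiagram.colLen_eq_card]
  refine (Finset.card_le_card (Finset.filter_subset _ _)).trans ?_
  exact (card_diag p).le

theorem part_succ {n : ℕ} (p : n.Partition) (i : ℕ) : part p (i + 1) = (diag p).rowLen i := by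
  rw [rowLen_diag]
  rfl

theorem conj_succ {n : ℕ} (p : n.Partition) (j : ℕ) : conj p (j + 1) = (diag p).colLen j := by
  unfold conj
  have : (Icc 1 n).filter (fun i => j + 1 ≤ part p i) =
      (range ((diag p).colLen j)).image (· + 1) := by
    ext i
    rw [mem_filter, mem_Icc, mem_image]
    constructor
    · rintro ⟨⟨h1, h2⟩, h3⟩
      refine ⟨i - 1, ?_, by omega⟩
      rw [mem_range, ← cell_iff, ← part_succ]
      have : i - 1 + 1 = i := by omega
      rw [this]
      omega
    · rintro ⟨k, hk, rfl⟩
      rw [mem_range] at hk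
      have h1 := colLen_le p j
      refine ⟨by omega, ?_⟩
      rw [part_succ]
      have := (cell_iff (diag p) k j).2 hk
      omega
  rw [this, Finset.card_image_of_injective _ (add_left_injective 1), card_range]

theorem cells_eq {n : ℕ} (p : n.Partition) :
    cells p = (diag p).cells.image (fun u => (u.1 + 1, u.2 + 1)) := by
  ext ⟨a, b⟩
  unfold cells
  simp only [mem_filter, mem_product, mem_Icc, mem_image, YoungDiagram.mem_cells, Prod.exists,
    Prod.mk.injEq]
  constructor
  · rintro ⟨⟨⟨h1, h2⟩, h3, h4⟩, h5⟩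
    refine ⟨a - 1, b - 1, ?_, by omega, by omega⟩
    rw [YoungDiagram.mem_iff_lt_rowLen, ← part_succ]
    have : a - 1 + 1 = a := by omega
    rw [this]
    omega
  · rintro ⟨i, j, h, rfl, rfl⟩
    have h1 := YoungDiagram.mem_iff_lt_rowLen.1 h
    have h2 := YoungDiagram.mem_iff_lt_colLen.1 h
    have h3 := rowLen_le p i
    have h4 := colLen_le p j
    rw [part_succ]
    omega

theorem prod_cells {n : ℕ} (p : n.Partition) (f : ℕ → ℕ → ℚ) :
    ∏ u ∈ cells p, f u.1 u.2 = ∏ u ∈ (diag p).cells, f (u.1 + 1) (u.2 + 1) := by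
  rw [cells_eq, Finset.prod_image]
  rintro ⟨a, b⟩ _ ⟨c, d⟩ _ h
  simp only [Prod.mk.injEq] at h
  ext <;> simp <;> omega

theorem hook_succ {n : ℕ} (p : n.Partition) (i j : ℕ) :
    hook p (i + 1) (j + 1) = hk (diag p) i j := by
  unfold hook hk
  rw [part_succ, conj_succ]
  push_cast
  ring

theorem csp_succ {n : ℕ} (p : n.Partition) (i j : ℕ) :
    csp p (i + 1) (j + 1) = cs (diag p) i j := by
  unfold csp cs
  rw [part_succ, conj_succ, part_succ, conj_succ]
  by_cases h : j < i
  · rw [if_pos h, if_pos (by omega)]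
    push_cast
    ring
  · rw [if_neg h, if_neg (by omega)]
    push_cast
    ring

theorem cO_succ {n : ℕ} (p : n.Partition) (i j : ℕ) :
    cO p (i + 1) (j + 1) = - cs (diag p).transpose j i := by
  unfold cO cs
  rw [part_succ, conj_succ, part_succ, conj_succ, YoungDiagram.rowLen_transpose,
    YoungDiagram.rowLen_transpose, YoungDiagram.colLen_transpose, YoungDiagram.colLen_transpose]
  by_cases h : i < j
  · rw [if_pos h, if_neg (by omega)]
    push_cast
    ring
  · rw [if_neg h, if_pos (by omega)]
    push_cast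
    ring

theorem hk_transpose (μ : YoungDiagram) (i j : ℕ) : hk μ.transpose j i = hk μ i j := by
  unfold hk
  rw [YoungDiagram.rowLen_transpose, YoungDiagram.colLen_transpose]
  ring

theorem prod_transpose (μ : YoungDiagram) (f : ℕ → ℕ → ℚ) :
    ∏ u ∈ μ.transpose.cells, f u.1 u.2 = ∏ u ∈ μ.cells, f u.2 u.1 := by
  refine Finset.prod_bij' (fun u _ => u.swap) (fun u _ => u.swap) ?_ ?_ ?_ ?_ ?_
  · intro u hu
    rw [YoungDiagram.mem_cells, YoungDiagram.mem_transpose] at hu
    exact hu
  · intro u hu
    rw [YoungDiagram.mem_cells, YoungDiagram.mem_transpose, Prod.swap_swap]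
    exact hu
  · intro u _
    simp
  · intro u _
    simp
  · intro u _
    simp

open Classical in
theorem weight_sp {n : ℕ} (p : n.Partition) :
    ∏ u ∈ cells p, ((csp p u.1 u.2 : ℚ) / (hook p u.1 u.2 : ℚ)) ^ 2 =
      if good (diag p) then 1 else 0 := by
  rw [prod_cells p (fun i j => ((csp p i j : ℚ) / (hook p i j : ℚ)) ^ 2), ← prod_eq]
  refine Finset.prod_congr rfl fun u _ => ?_
  simp only [csp_succ, hook_succ]

open Classical in
theorem weight_O {n : ℕ} (p : n.Partition) :
    ∏ u ∈ cells p, ((cO p u.1 u.2 : ℚ) / (hook p u.1 u.2 : ℚ)) ^ 2 =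
      if good (diag p).transpose then 1 else 0 := by
  rw [prod_cells p (fun i j => ((cO p i j : ℚ) / (hook p i j : ℚ)) ^ 2), ← prod_eq]
  rw [prod_transpose (diag p) (fun i j => ((cs (diag p).transpose i j : ℚ) /
    (hk (diag p).transpose i j : ℚ)) ^ 2)]
  refine Finset.prod_congr rfl fun u _ => ?_
  simp only [cO_succ, hook_succ, hk_transpose]
  push_cast
  rw [neg_div, neg_sq]

/-- The partition whose parts are the row lengths of a diagram. -/
def ofDiag {n : ℕ} (μ : YoungDiagram) (h : μ.card = n) : n.Partition where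
  parts := μ.rowLens
  parts_pos := fun {i} hi => μ.pos_of_mem_rowLens i (by simpa using hi)
  parts_sum := by
    rw [Multiset.sum_coe, ← card_eq_sum_rowLens, h]

theorem diag_ofDiag {n : ℕ} (μ : YoungDiagram) (h : μ.card = n) : diag (ofDiag μ h) = μ := by
  have h1 : (diag (ofDiag μ h)).rowLens = μ.rowLens := by
    rw [rowLens_diag]
    change ((μ.rowLens : List ℕ) : Multiset ℕ).sort (· ≥ ·) = μ.rowLens
    rw [Multiset.coe_sort]
    exact List.mergeSort_eq_self _ μ.rowLens_sorted.pairwise
  exact YoungDiagram.equivListRowLens.injective (Subtype.ext h1)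

theorem diag_injective {n : ℕ} : Function.Injective (diag : n.Partition → YoungDiagram) := by
  intro p q h
  have h1 : (diag p).rowLens = (diag q).rowLens := by rw [h]
  rw [rowLens_diag, rowLens_diag] at h1
  apply Nat.Partition.ext
  have h2 := congrArg (fun l : List ℕ => (l : Multiset ℕ)) h1
  simpa using h2

theorem ofDiag_diag {n : ℕ} (p : n.Partition) (h : (diag p).card = n) : ofDiag (diag p) h = p :=
  diag_injective (diag_ofDiag _ _)

theorem card_transpose (μ : YoungDiagram) : μ.transpose.card = μ.card := by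
  unfold YoungDiagram.transpose YoungDiagram.card
  simp

open Classical in
theorem SO_eq_Ssp (n : ℕ) : SO n = Ssp n := by
  unfold SO Ssp
  simp_rw [weight_sp, weight_O]
  refine Finset.sum_bij' (fun p _ => ofDiag (diag p).transpose
      ((card_transpose _).trans (card_diag p)))
    (fun p _ => ofDiag (diag p).transpose ((card_transpose _).trans (card_diag p)))
    (fun _ _ => mem_univ _) (fun _ _ => mem_univ _) ?_ ?_ ?_
  · intro p _
    apply diag_injective
    rw [diag_ofDiag, diag_ofDiag, YoungDiagram.transpose_transpose]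
  · intro p _
    apply diag_injective
    rw [diag_ofDiag, diag_ofDiag, YoungDiagram.transpose_transpose]
  · intro p _
    rw [diag_ofDiag]

open Classical in
theorem Ssp_eq_card (n : ℕ) :
    Ssp n = (((univ : Finset n.Partition).filter (fun p => good (diag p))).card : ℚ) := by
  unfold Ssp
  simp_rw [weight_sp]
  rw [Finset.sum_boole]

open Classical in
theorem card_good_even (k : ℕ) :
    ((univ : Finset (2 * k).Partition).filter (fun p => good (diag p))).card =
      (Nat.Partition.distincts k).card := by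
  symm
  have hcard : ∀ q ∈ Nat.Partition.distincts k, (Y q.parts.toFinset).card = 2 * k := by
    intro q hq
    rw [card_Y]
    congr 1
    have hnd : q.parts.Nodup := by
      simpa [Nat.Partition.distincts] using hq
    have : ∑ t ∈ q.parts.toFinset, t = (q.parts.toFinset.val).sum := by
      rw [Finset.sum_eq_multiset_sum]
      simp
    rw [this, Multiset.toFinset_val, Multiset.dedup_eq_self.2 hnd, q.parts_sum]
  refine Finset.card_bij (fun q hq => ofDiag (Y q.parts.toFinset) (hcard q hq)) ?_ ?_ ?_
  · intro q hq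
    rw [mem_filter]
    refine ⟨mem_univ _, ?_⟩
    rw [diag_ofDiag]
    exact good_Y _
  · intro q hq q' hq' h
    have h1 := congrArg diag h
    rw [diag_ofDiag, diag_ofDiag] at h1
    have hnd : q.parts.Nodup := by
      simpa [Nat.Partition.distincts] using hq
    have hnd' : q'.parts.Nodup := by
      simpa [Nat.Partition.distincts] using hq'
    have h2 := Y_inj ?_ ?_ h1
    · have h3 := congrArg Finset.val h2
      rw [Multiset.toFinset_val, Multiset.toFinset_val, Multiset.dedup_eq_self.2 hnd,
        Multiset.dedup_eq_self.2 hnd'] at h3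
      exact Nat.Partition.ext h3
    · intro h0
      rw [Multiset.mem_toFinset] at h0
      exact absurd (q.parts_pos h0) (lt_irrefl 0)
    · intro h0
      rw [Multiset.mem_toFinset] at h0
      exact absurd (q'.parts_pos h0) (lt_irrefl 0)
  · intro p hp
    rw [mem_filter] at hp
    have hYa := Y_arms hp.2
    have hsum : ∑ t ∈ arms (diag p), t = k := by
      have h1 := card_Y (arms (diag p))
      rw [hYa, card_diag] at h1
      omega
    refine ⟨⟨(arms (diag p)).val, ?_, ?_⟩, ?_, ?_⟩
    · intro i hi
      rcases Nat.eq_zero_or_pos i with h0 | h0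
      · exact absurd (h0 ▸ hi) (zero_notMem_arms (diag p))
      · exact h0
    · refine Eq.trans ?_ hsum
      rw [Finset.sum_eq_multiset_sum]
      simp
    · simp only [Nat.Partition.distincts, mem_filter, mem_univ, true_and]
      exact (arms (diag p)).nodup
    · apply diag_injective
      rw [diag_ofDiag]
      simp only [Finset.val_toFinset]
      exact hYa

open Classical in
theorem card_good_odd (k : ℕ) :
    ((univ : Finset (2 * k + 1).Partition).filter (fun p => good (diag p))).card = 0 := by
  rw [Finset.card_eq_zero, Finset.filter_eq_empty_iff]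
  intro p _ hg
  have h1 := card_Y (arms (diag p))
  rw [Y_arms hg, card_diag] at h1
  omega

theorem card_restricted_even (k : ℕ) :
    (Nat.Partition.restricted (2 * k) (fun a => a % 4 = 2)).card = (Nat.Partition.odds k).card := by
  symm
  unfold Nat.Partition.odds
  refine Finset.card_bij (fun q _ => ⟨q.parts.map (fun a => 2 * a), ?_, ?_⟩) ?_ ?_ ?_
  · intro i hi
    rw [Multiset.mem_map] at hi
    obtain ⟨a, ha, rfl⟩ := hi
    have := q.parts_pos ha
    omega
  · rw [Multiset.sum_map_mul_left, Multiset.map_id', q.parts_sum]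
  · intro q hq
    simp only [Nat.Partition.restricted, mem_filter, mem_univ, true_and] at hq ⊢
    intro i hi
    rw [Multiset.mem_map] at hi
    obtain ⟨a, ha, rfl⟩ := hi
    have := hq a ha
    rw [Nat.even_iff] at this
    omega
  · intro q _ q' _ h
    have h1 := congrArg Nat.Partition.parts h
    simp only at h1
    apply Nat.Partition.ext
    exact Multiset.map_injective (fun a b hab => by simpa using hab) h1
  · intro p hp
    simp only [Nat.Partition.restricted, mem_filter, mem_univ, true_and] at hp
    have hmap : (p.parts.map (fun a => a / 2)).map (fun a => 2 * a) = p.parts := by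
      rw [Multiset.map_map]
      conv_rhs => rw [← Multiset.map_id p.parts]
      apply Multiset.map_congr rfl
      intro a ha
      have := hp a ha
      simp only [Function.comp_apply, id]
      omega
    refine ⟨⟨p.parts.map (fun a => a / 2), ?_, ?_⟩, ?_, ?_⟩
    · intro i hi
      rw [Multiset.mem_map] at hi
      obtain ⟨a, ha, rfl⟩ := hi
      have h1 := p.parts_pos ha
      have h2 := hp a ha
      omega
    · have h1 : ((p.parts.map (fun a => a / 2)).map (fun a => 2 * a)).sum = 2 * k := by
        rw [hmap, p.parts_sum]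
      rw [Multiset.sum_map_mul_left, Multiset.map_id'] at h1
      omega
    · simp only [Nat.Partition.restricted, mem_filter, mem_univ, true_and]
      intro i hi
      rw [Multiset.mem_map] at hi
      obtain ⟨a, ha, rfl⟩ := hi
      have h2 := hp a ha
      rw [Nat.even_iff]
      omega
    · apply Nat.Partition.ext
      exact hmap

theorem card_restricted_odd (k : ℕ) :
    (Nat.Partition.restricted (2 * k + 1) (fun a => a % 4 = 2)).card = 0 := by
  rw [Finset.card_eq_zero]
  unfold Nat.Partition.restricted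
  rw [Finset.filter_eq_empty_iff]
  intro p _ hp
  have h1 : 2 ∣ p.parts.sum := by
    apply Multiset.dvd_sum
    intro a ha
    have := hp a ha
    omega
  rw [p.parts_sum] at h1
  omega

theorem Ssp_eq (n : ℕ) :
    Ssp n = ((Nat.Partition.restricted n (fun a => a % 4 = 2)).card : ℚ) := by
  classical
  rw [Ssp_eq_card]
  norm_cast
  obtain ⟨k, rfl | rfl⟩ := Nat.even_or_odd' n
  · rw [card_restricted_even, Nat.Partition.card_odds_eq_card_distincts, ← card_good_even]
  · rw [card_restricted_odd, ← card_good_odd k]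

open scoped PowerSeries.WithPiTopology in
theorem hasProd_Ssp :
    HasProd (fun j : ℕ => (1 - (X : ℚ⟦X⟧) ^ (4 * (j + 1) - 2))⁻¹) (PowerSeries.mk Ssp) := by
  have h1 := Nat.Partition.hasProd_powerSeriesMk_card_restricted ℚ (fun a => a % 4 = 2)
  have hinj : Function.Injective (fun j : ℕ => 4 * j + 1) := by
    intro a b h
    simp only at h
    omega
  have h2 := (hinj.hasProd_iff (f := fun i ↦ if (i + 1) % 4 = 2 then
    ∑' j : ℕ, (X : ℚ⟦X⟧) ^ ((i + 1) * j) else 1)
    (a := PowerSeries.mk fun n ↦ (#(Nat.Partition.restricted n (fun a => a % 4 = 2)) : ℚ)) ?_).2 h1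
  · have h3 : (PowerSeries.mk Ssp : ℚ⟦X⟧) =
        PowerSeries.mk fun n ↦ (#(Nat.Partition.restricted n (fun a => a % 4 = 2)) : ℚ) := by
      congr 1
      funext n
      exact Ssp_eq n
    rw [h3]
    convert h2 using 1
    funext j
    simp only [Function.comp_apply]
    have h4 : (4 * j + 1 + 1) % 4 = 2 := by omega
    rw [if_pos h4]
    have h5 : 4 * (j + 1) - 2 = 4 * j + 1 + 1 := by omega
    rw [h5]
    simp_rw [pow_mul]
    have hc : constantCoeff ((X : ℚ⟦X⟧) ^ (4 * j + 1 + 1)) = 0 := by simp
    have h6 := WithPiTopology.tsum_pow_mul_one_sub_of_constantCoeff_eq_zero hc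
    have h7 : constantCoeff (1 - (X : ℚ⟦X⟧) ^ (4 * j + 1 + 1)) ≠ 0 := by
      simp
    symm
    rw [PowerSeries.eq_inv_iff_mul_eq_one h7]
    exact h6
  · intro i hi
    rw [if_neg]
    intro h
    apply hi
    refine ⟨i / 4, ?_⟩
    simp only
    omega

open scoped PowerSeries.WithPiTopology in
/-- For every `n` both squared sums equal the number of partitions of `n` all of whose parts are
congruent to `2` modulo `4`; and both generating series equal the product
`∏_{j ≥ 1} (1 - x^(4j-2))⁻¹`. -/
theorem result :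
    (∀ n : ℕ, Ssp n = (#{p : n.Partition | ∀ a ∈ p.parts, a % 4 = 2} : ℚ) ∧
      SO n = (#{p : n.Partition | ∀ a ∈ p.parts, a % 4 = 2} : ℚ)) ∧
    HasProd (fun j : ℕ => (1 - (X : ℚ⟦X⟧) ^ (4 * (j + 1) - 2))⁻¹) (PowerSeries.mk Ssp) ∧
    HasProd (fun j : ℕ => (1 - (X : ℚ⟦X⟧) ^ (4 * (j + 1) - 2))⁻¹) (PowerSeries.mk SO) := by
  refine ⟨fun n => ⟨Ssp_eq n, (SO_eq_Ssp n).trans (Ssp_eq n)⟩, hasProd_Ssp, ?_⟩
  have : SO = Ssp := funext SO_eq_Ssp
  rw [this]
  exact hasProd_Ssp

end Pool.Agent.Results.MP_80d245_co.SquaredContents
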